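import Pool.Agent.Q281.QC.Stmt2

set_option autoImplicit false

/-!
# MP_dac99f_nt: a Dwork type q-supercongruence with factors `[4k+1]` and `q^(k^2)` (Q1)

For every `m ≥ 1` and every odd `n > 1` the congruence of Q1 holds; for `n = 1` (where `Φ_1 = q - 1`)
it fails for `m = 2`.

Method. Put `T(N,k) = (-1)^k [4k+1] q^(k^2) ∏_{i<k} (1-q^(2i+1+N)) (1-q^(2i+1-N)) (1-q^(2i+1)) /
((1-q^(2i+2+N)) (1-q^(2i+2-N)) (1-q^(2i+2)))`. For odd `N = 2M+1` the sum of `T(N,k)` over `k` terminates
and equals `(-1)^M q^(M^2) [N]` (telescoping in `N`). For `N = s n` and modulo `(q^n-1)^2` the sum over a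
block `l n ≤ k < (l+1) n` is `w_l(s) B_l` with a rational number `w_l(s)` and `B_l` independent of `s`
(`s = 0` or `s` odd). The evaluations at `s = 1, 3, 5, …` form a triangular system for the `B_l`, which has
the same solution as the system for `n = 1`, `q → 1`; then one puts `s = 0`.
-/

namespace Pool.Agent.Results.MP_dac99f_nt.DworkFourKPlusOne

open Polynomial Pool.Agent.Q281.QCD Pool.Agent.Q281

/-- `S_{m,n}(q)`. -/
noncomputable def S (m n : ℕ) : RatFunc ℚ := ∑ k ∈ Finset.range (m * n),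
  (-1) ^ k * qint (4 * k + 1) * q ^ (k ^ 2) * (qp q (q ^ 2) k ^ 3 / qp (q ^ 2) (q ^ 2) k ^ 3)

/-- `c_m`. -/
noncomputable def c (m : ℕ) : ℚ := ∑ k ∈ Finset.range m,
  (-1) ^ k * (4 * k + 1) * (rise (1 / 2) k ^ 3 / (k.factorial : ℚ) ^ 3)

/-- The right-hand side. -/
noncomputable def R (m n : ℕ) : RatFunc ℚ :=
  (-1) ^ ((n - 1) / 2) * q ^ ((n - 1) ^ 2 / 4) * qint n * ((c m : ℚ) : RatFunc ℚ)

/-- The congruence for all odd `n > 1`, and its failure for `n = 1`, `m = 2`. -/
theorem result : (∀ m n : ℕ, 1 ≤ m → 1 < n → Odd n → CongrPhiSq n (S m n) (R m n)) ∧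
    ¬ CongrPhiSq 1 (S 2 1) (R 2 1) := by
  constructor
  · intro m n _ hn hodd
    obtain ⟨h, hh, rfl, e1, e2⟩ := odd_form hodd hn
    have key := QC.dworkA hh m
    apply congr_of_cg (by omega)
    have eS : S m (2 * h + 1) = ∑ k ∈ Finset.range (m * (2 * h + 1)),
        QC.sgA k * QC.PP 1 1 1 2 0 k := by
      rw [S]
      refine Finset.sum_congr rfl fun k _ => ?_
      have h1 := QC.PP_pa 1 0 k
      rw [pow_one, pow_zero, Nat.cast_zero] at h1
      rw [h1, pa_one, QC.sgA]
      rfl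
    have eR : R m (2 * h + 1) = ((-1) ^ h * QC.q ^ (h ^ 2) * QC.qn (2 * h + 1)) *
        ((∑ l ∈ Finset.range m, QC.ww 1 2 0 l * ((-1) ^ l * (4 * l + 1)) : ℚ) : RatFunc ℚ) := by
      rw [R, e1, e2, c, qint_eq]
      congr 2
      refine Finset.sum_congr rfl fun l _ => ?_
      rw [ww2]
      ring
    rw [eS, eR]
    exact key
  · have hq1 : (1 : RatFunc ℚ) + q ≠ 0 := by
      intro h
      have h1 : (1 - q ^ 2 : RatFunc ℚ) = 0 := by linear_combination (1 - q) * h
      exact QC.qq_ne 1 h1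
    have hq2 : (1 : RatFunc ℚ) - q ≠ 0 := QC.one_sub_q_ne
    have hS : S 2 1 = 1 - (1 + q + q ^ 2 + q ^ 3 + q ^ 4) * q / (1 + q) ^ 3 := by
      have e : (1 : RatFunc ℚ) - q ^ 2 = (1 - q) * (1 + q) := by ring
      rw [S, show 2 * 1 = 2 from rfl, Finset.sum_range_succ, Finset.sum_range_one]
      simp only [qp, qint, Finset.prod_range_succ, Finset.range_zero, Finset.prod_empty,
        Finset.sum_range_succ, Finset.sum_empty, pow_zero, pow_one, mul_one, one_mul, mul_zero,
        zero_add, one_pow, ne_eq, OfNat.ofNat_ne_zero, not_false_eq_true, zero_pow, div_one]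
      rw [e]
      field_simp
      ring
    have hR : R 2 1 = ((3 / 8 : ℚ) : RatFunc ℚ) := by
      have hc : c 2 = 3 / 8 := by
        rw [c, Finset.sum_range_succ, Finset.sum_range_one]
        simp only [rise, Finset.prod_range_succ, Finset.range_zero, Finset.prod_empty,
          Nat.factorial]
        norm_num
      rw [R, hc]
      simp [qint]
    refine not_congr_one (D := 8 * (1 + X) ^ 3)
      (F := 5 * (1 + X) ^ 3 - 8 * X * (1 + X + X ^ 2 + X ^ 3 + X ^ 4)) ?_ ?_
    · rw [hS, hR]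
      simp only [map_sub, map_mul, map_pow, map_add, map_one, map_ofNat]
      rw [RatFunc.algebraMap_X]
      push_cast
      field_simp
      ring
    · simp [derivative_pow]
      norm_num

end Pool.Agent.Results.MP_dac99f_nt.DworkFourKPlusOne
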